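import Pool.Agent.Run7.h755.T.H5Chk
import Pool.Agent.Run7.h851.T.Iface

/-!
# The local determinants are nonzero (modulo `11`)
-/

open Polynomial Pool.Agent.H337R2

namespace Pool.Agent.Run7.h755.T

open Pool.Agent.Run7.h851.T

namespace H5

attribute [local instance] fact11

/-! ### the series at the poles -/

theorem rep_pow {a : ℚ} (ha : a ≠ 0) {c ci : ℕ} (hc : Rl a c) (hci : c * ci % 11 = 1) (L : List ℕ)
    (h1 : Chk c (L.getD 0 0) 1) (h2 : sm (L.getD 0 0) = true) (h3 : sq6 L = true) :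
    Rep (iv a ^ 64) (L.getD 6 0) ∧ sm (L.getD 6 0) = true :=
  rep_pow64 L (rep_iv ha hc hci h1) h2 h3

theorem ivp (i j : ℕ) (c ci : ℕ) (hne : ((i : ℚ) - j) ≠ 0) (hc : (i + 10 * j) % 11 = c % 11)
    (hci : c * ci % 11 = 1) (L : List ℕ) (h1 : Chk c (L.getD 0 0) 1) (h2 : sm (L.getD 0 0) = true)
    (h3 : sq6 L = true) : Rep (iv ((i : ℚ) - j) ^ 64) (L.getD 6 0) ∧ sm (L.getD 6 0) = true :=
  rep_pow hne ((Rl.sub_nat i j).congr hc) hci L h1 h2 h3

theorem P1_c : Chk 1 (P1.getD 0 0) 1 := by decide +kernel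
theorem P2_c : Chk 2 (P2.getD 0 0) 1 := by decide +kernel
theorem P3_c : Chk 3 (P3.getD 0 0) 1 := by decide +kernel
theorem Q1_c : Chk 10 (Q1.getD 0 0) 1 := by decide +kernel
theorem Q2_c : Chk 9 (Q2.getD 0 0) 1 := by decide +kernel
theorem Q3_c : Chk 8 (Q3.getD 0 0) 1 := by decide +kernel

theorem P1_s : sm (P1.getD 0 0) = true := by decide +kernel
theorem P2_s : sm (P2.getD 0 0) = true := by decide +kernel
theorem P3_s : sm (P3.getD 0 0) = true := by decide +kernel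
theorem Q1_s : sm (Q1.getD 0 0) = true := by decide +kernel
theorem Q2_s : sm (Q2.getD 0 0) = true := by decide +kernel
theorem Q3_s : sm (Q3.getD 0 0) = true := by decide +kernel

theorem P1_q : sq6 P1 = true := by decide +kernel
theorem P2_q : sq6 P2 = true := by decide +kernel
theorem P3_q : sq6 P3 = true := by decide +kernel
theorem Q1_q : sq6 Q1 = true := by decide +kernel
theorem Q2_q : sq6 Q2 = true := by decide +kernel
theorem Q3_q : sq6 Q3 = true := by decide +kernel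

theorem er0 : (Finset.Icc 0 3).erase 0 = ({1, 2, 3} : Finset ℕ) := by decide
theorem er1 : (Finset.Icc 0 3).erase 1 = ({0, 2, 3} : Finset ℕ) := by decide
theorem er2 : (Finset.Icc 0 3).erase 2 = ({0, 1, 3} : Finset ℕ) := by decide
theorem er3 : (Finset.Icc 0 3).erase 3 = ({0, 1, 2} : Finset ℕ) := by decide

theorem prod3 (g : ℕ → PowerSeries ℚ) {a b c : ℕ} (h1 : a ∉ ({b, c} : Finset ℕ)) (h2 : b ≠ c) :
    ∏ x ∈ ({a, b, c} : Finset ℕ), g x = g a * g b * g c := by
  rw [Finset.prod_insert h1, Finset.prod_pair h2, mul_assoc]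

/-- the constant part of the series -/
noncomputable def fS (j : ℕ) : PowerSeries ℚ := ∏ b ∈ (Finset.Icc 0 3).erase j, iv ((b : ℚ) - j) ^ 64

/-- component -/
def gt (x : ℕ × ℕ × ℕ × ℕ) : ℕ → ℕ
  | 0 => x.1
  | 1 => x.2.1
  | 2 => x.2.2.1
  | _ => x.2.2.2

/-- the class of `-j` -/
def nc : ℕ → ℕ
  | 0 => 0
  | 1 => 10
  | 2 => 9
  | _ => 8

theorem fS_rep (j : ℕ) (hj : j ≤ 3) : Rep (fS j) (gt T0 j) ∧ sm (gt T0 j) = true := by
  unfold fS
  interval_cases j
  · rw [er0, prod3 _ (by decide) (by decide)]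
    exact rep_mul3 (A := A0) (ivp 1 0 1 1 (by norm_num) (by norm_num) (by norm_num) P1 P1_c P1_s P1_q)
      (ivp 2 0 2 6 (by norm_num) (by norm_num) (by norm_num) P2 P2_c P2_s P2_q)
      (ivp 3 0 3 4 (by norm_num) (by norm_num) (by norm_num) P3 P3_c P3_s P3_q)
      (by decide +kernel) (by decide +kernel)
  · rw [er1, prod3 _ (by decide) (by decide)]
    exact rep_mul3 (A := A1) (ivp 0 1 10 10 (by norm_num) (by norm_num) (by norm_num) Q1 Q1_c Q1_s Q1_q)
      (ivp 2 1 1 1 (by norm_num) (by norm_num) (by norm_num) P1 P1_c P1_s P1_q)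
      (ivp 3 1 2 6 (by norm_num) (by norm_num) (by norm_num) P2 P2_c P2_s P2_q)
      (by decide +kernel) (by decide +kernel)
  · rw [er2, prod3 _ (by decide) (by decide)]
    exact rep_mul3 (A := A2) (ivp 0 2 9 5 (by norm_num) (by norm_num) (by norm_num) Q2 Q2_c Q2_s Q2_q)
      (ivp 1 2 10 10 (by norm_num) (by norm_num) (by norm_num) Q1 Q1_c Q1_s Q1_q)
      (ivp 3 2 1 1 (by norm_num) (by norm_num) (by norm_num) P1 P1_c P1_s P1_q)
      (by decide +kernel) (by decide +kernel)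
  · rw [er3, prod3 _ (by decide) (by decide)]
    exact rep_mul3 (A := A3) (ivp 0 3 8 7 (by norm_num) (by norm_num) (by norm_num) Q3 Q3_c Q3_s Q3_q)
      (ivp 1 3 9 5 (by norm_num) (by norm_num) (by norm_num) Q2 Q2_c Q2_s Q2_q)
      (ivp 2 3 10 10 (by norm_num) (by norm_num) (by norm_num) Q1 Q1_c Q1_s Q1_q)
      (by decide +kernel) (by decide +kernel)

/-- the series at all poles -/
def TA : List (ℕ × ℕ × ℕ × ℕ) := T0 :: TL

theorem st_j {x y : ℕ × ℕ × ℕ × ℕ} (h : st4 y x = true) (j : ℕ) (hj : j ≤ 3) :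
    st (nc j) (gt y j) (gt x j) = true := by
  unfold st4 at h
  simp only [Bool.and_eq_true] at h
  obtain ⟨h0, h1, h2, h3⟩ := h
  interval_cases j
  · exact h0
  · exact h1
  · exact h2
  · exact h3

theorem nc_le (j : ℕ) (hj : j ≤ 3) : nc j ≤ 10 := by
  interval_cases j <;> decide

theorem nc_rl (j : ℕ) (hj : j ≤ 3) : Rl (-(j : ℚ)) (nc j) := by
  refine (Rl.nat j).neg.congr ?_
  interval_cases j <;> decide

theorem ser_rep (j : ℕ) (hj : j ≤ 3) (e : ℕ) (he : e ≤ 190) :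
    Rep (ser j e) (gt (TA.getD e z4) j) ∧ sm (gt (TA.getD e z4) j) = true := by
  induction e with
  | zero =>
    have := fS_rep j hj
    have e1 : ser j 0 = fS j := by
      unfold ser fS
      rw [pow_zero, mul_one]
    rw [e1]
    exact this
  | succ e ih =>
    obtain ⟨h1, h2⟩ := ih (by omega)
    have h3 := st_j (chkT_get TL T0 TL_chk e (by rw [TL_len]; omega)) j hj
    have e1 : ser j (e + 1) = (PowerSeries.X + PowerSeries.C (-(j : ℚ))) * ser j e := by
      unfold ser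
      rw [pow_succ]
      ring
    rw [e1]
    exact ⟨rep_lin h1 (nc_rl j hj) (st_chk h3 h2 (nc_le j hj)), cg_sm h3⟩

/-! ### harmonic sums -/

/-- inverses modulo `11` -/
def inv11 : ℕ → ℕ
  | 0 => 1
  | 1 => 6
  | _ => 4

/-- harmonic sums modulo `11` -/
def hN (i m : ℕ) : ℕ := ∑ l ∈ Finset.range m, inv11 l ^ i

theorem rl_hs (i m : ℕ) (hm : m ≤ 3) : Rl (hs i m) (hN i m) := by
  unfold hs hN
  refine Rl.sum _ _ _ fun l hl => ?_
  rw [Finset.mem_range] at hl
  rw [← one_div_pow]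
  refine Rl.pow ?_ i
  have hl3 : l < 3 := by omega
  interval_cases l
  · exact (Rl.cancel (a := 1) (m := 1) (mi := 1) (n := 1) Rl.one (by decide) (by norm_num; exact Rl.one))
  · exact (Rl.cancel (a := 2) (m := 2) (mi := 6) (n := 1) (Rl.nat 2) (by decide) (by norm_num; exact Rl.one))
  · exact (Rl.cancel (a := 3) (m := 3) (mi := 4) (n := 1) (Rl.nat 3) (by decide) (by norm_num; exact Rl.one))

/-- weights -/
def WW : ℕ → ℕ
  | 0 => W0
  | 1 => W1
  | 2 => W2
  | _ => W3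

theorem WW_chk : ∀ j ≤ 3, ∀ i < 64,
    (hN (i + 1) j + 10 ^ (i + 1 + 1) * hN (i + 1) (3 - j)) % 11 = dg (WW j) i % 11 := by
  decide +kernel

theorem WW_sm (j : ℕ) (hj : j ≤ 3) : sm (WW j) = true := by
  have h := W_sm
  simp only [Bool.and_eq_true] at h
  obtain ⟨h0, h1, h2, h3⟩ := h
  interval_cases j
  · exact h0
  · exact h1
  · exact h2
  · exact h3

/-! ### values of the functionals -/

theorem sum_conv (f g : ℕ → ℕ) : ∑ i ∈ Finset.Icc 1 64, f (64 - i) * g (i - 1) =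
    ∑ i ∈ Finset.range 64, f i * g (63 - i) := by
  rw [← Finset.sum_range_reflect, Finset.range_eq_Ico]
  have : Finset.Icc 1 64 = Finset.Ico (0 + 1) (64 + 1) := by
    ext x
    simp only [Finset.mem_Icc, Finset.mem_Ico]
    omega
  rw [this, ← Finset.sum_Ico_add' (fun i => f (64 - i) * g (i - 1)) 0 64 1]
  refine Finset.sum_congr rfl fun i hi => ?_
  have hi' := Finset.mem_Ico.1 hi
  have e1 : 64 - (i + 1) = 64 - 1 - i := by omega
  have e2 : i + 1 - 1 = 63 - (64 - 1 - i) := by omega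
  rw [e1, e2]

theorem rl_F (j : ℕ) (hj : j ≤ 3) (e : ℕ) (he : e ≤ 190) :
    Rl (∑ i ∈ Finset.Icc 1 64, PowerSeries.coeff (64 - i) (ser j e) * (hs i j + (-1) ^ (i + 1) * hs i (3 - j)))
      (dg (gt (TA.getD e z4) j * WW j) 63) := by
  obtain ⟨h1, h2⟩ := ser_rep j hj e he
  rw [dg_mul h2 (WW_sm j hj) 63 (by norm_num),
    ← sum_conv (fun i => dg (gt (TA.getD e z4) j) i) (fun i => dg (WW j) i)]
  refine Rl.sum _ _ _ fun i hi => ?_
  have hi' := Finset.mem_Icc.1 hi
  refine Rl.mul (h1 (64 - i) (by omega)) ?_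
  have h3 := WW_chk j hj (i - 1) (by omega)
  have e1 : i - 1 + 1 = i := by omega
  rw [e1] at h3
  refine Rl.congr ?_ h3
  exact Rl.add (rl_hs _ _ hj) (Rl.mul (Rl.neg_one.pow _) (rl_hs _ _ (by omega)))

theorem sum_Icc4 {M : Type} [AddCommMonoid M] (f : ℕ → M) :
    ∑ j ∈ Finset.Icc 0 3, f j = f 0 + f 1 + f 2 + f 3 := by
  have : Finset.Icc 0 3 = Finset.range 4 := by decide
  rw [this, Finset.sum_range_succ, Finset.sum_range_succ, Finset.sum_range_succ, Finset.sum_range_one]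

theorem val (e : ℕ) (he : e ≤ 190) : ve (TA.getD e z4) (nb FF e) (nb B3 e) (nb B5 e) (nb B7 e) = true :=
  chkV_get (T0 :: TL) FF B3 B5 B7 TL_val e (by rw [List.length_cons, TL_len]; omega)

theorem rl_Fm (e : ℕ) (he : e ≤ 190) : Rl (Fm e) (nb FF e) := by
  have hv := val e he
  unfold ve at hv
  simp only [Bool.and_eq_true] at hv
  have h1 := Nat.eq_of_beq_eq_true hv.1
  unfold Fm
  rw [sum_Icc4 (fun j => ∑ i ∈ Finset.Icc 1 64,
    PowerSeries.coeff (64 - i) (ser j e) * (hs i j + (-1) ^ (i + 1) * hs i (3 - j)))]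
  refine Rl.congr (Rl.neg (Rl.add (Rl.add (Rl.add (rl_F 0 (by omega) e he) (rl_F 1 (by omega) e he))
    (rl_F 2 (by omega) e he)) (rl_F 3 (by omega) e he))) ?_
  rw [← h1, Nat.mod_mod]
  rfl

theorem rl_B (i0 : ℕ) (h0 : 1 ≤ i0) (h64 : i0 ≤ 64) (e : ℕ) (he : e ≤ 190) :
    Rl (Bm i0 e) (2 * (dg (TA.getD e z4).1 (64 - i0) + dg (TA.getD e z4).2.1 (64 - i0) +
      dg (TA.getD e z4).2.2.1 (64 - i0) + dg (TA.getD e z4).2.2.2 (64 - i0))) := by
  unfold Bm
  rw [sum_Icc4 (fun j => PowerSeries.coeff (64 - i0) (ser j e))]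
  refine Rl.mul (Rl.nat 2) ?_
  have hh := fun j hj => (ser_rep j hj e he).1 (64 - i0) (by omega)
  exact Rl.add (Rl.add (Rl.add (hh 0 (by omega)) (hh 1 (by omega))) (hh 2 (by omega))) (hh 3 (by omega))

theorem rl_B3 (e : ℕ) (he : e ≤ 190) : Rl (Bm 3 e) (nb B3 e) := by
  have hv := val e he
  unfold ve at hv
  simp only [Bool.and_eq_true] at hv
  have h1 := Nat.eq_of_beq_eq_true hv.2.1
  refine (rl_B 3 (by omega) (by omega) e he).congr ?_
  rw [← h1, Nat.mod_mod]

theorem rl_B5 (e : ℕ) (he : e ≤ 190) : Rl (Bm 5 e) (nb B5 e) := by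
  have hv := val e he
  unfold ve at hv
  simp only [Bool.and_eq_true] at hv
  have h1 := Nat.eq_of_beq_eq_true hv.2.2.1
  refine (rl_B 5 (by omega) (by omega) e he).congr ?_
  rw [← h1, Nat.mod_mod]

theorem rl_B7 (e : ℕ) (he : e ≤ 190) : Rl (Bm 7 e) (nb B7 e) := by
  have hv := val e he
  unfold ve at hv
  simp only [Bool.and_eq_true] at hv
  have h1 := Nat.eq_of_beq_eq_true hv.2.2.2
  refine (rl_B 7 (by omega) (by omega) e he).congr ?_
  rw [← h1, Nat.mod_mod]

/-! ### the matrix -/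

/-- the entries of the matrix -/
def EN (a b c i k : ℕ) : ℕ :=
  if k < 48 then nb a (i + k) else if k < 96 then nb b (i + (k - 48)) else nb c (i + (k - 96))

theorem nb_mod (a i k : ℕ) (hk : k < 48) : nb (a / 16 ^ i % 16 ^ 48) k = nb a (i + k) := by
  have h1 : ∀ y : ℕ, y % 16 ^ 48 / 16 ^ k % 16 = y / 16 ^ k % 16 := by
    intro y
    rw [← Nat.mod_mul_right_div_self, ← Nat.mod_mul_right_div_self, ← pow_succ,
      Nat.mod_mod_of_dvd _ (pow_dvd_pow _ (by omega))]
  unfold nb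
  rw [h1, Nat.div_div_eq_div_mul, ← pow_add]

theorem nb_cat_lt (A Z k : ℕ) (hk : k < 48) : nb (A + 16 ^ 48 * Z) k = nb A k := by
  unfold nb
  have e : (16 : ℕ) ^ 48 = 16 ^ k * (16 * 16 ^ (47 - k)) := by
    rw [← pow_succ', ← pow_add]
    congr 1
    omega
  rw [e, mul_assoc, Nat.add_mul_div_left _ _ (by positivity), mul_assoc, Nat.add_mul_mod_self_left]

theorem nb_cat_ge (A Z k : ℕ) (hA : A < 16 ^ 48) (hk : 48 ≤ k) : nb (A + 16 ^ 48 * Z) k = nb Z (k - 48) := by
  unfold nb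
  have e : (16 : ℕ) ^ k = 16 ^ 48 * 16 ^ (k - 48) := by
    rw [← pow_add]
    congr 1
    omega
  rw [e, ← Nat.div_div_eq_div_mul, Nat.add_mul_div_left _ _ (by positivity), Nat.div_eq_of_lt hA, zero_add]

theorem row_nb (a b c i k : ℕ) (hk : k < 144) : nb (row a b c i) k = EN a b c i k := by
  have hlt : ∀ x : ℕ, x % 16 ^ 48 < 16 ^ 48 := fun x => Nat.mod_lt _ (by positivity)
  unfold row EN
  split_ifs with h1 h2
  · rw [nb_cat_lt _ _ _ h1, nb_mod _ _ _ h1]
  · rw [nb_cat_ge _ _ _ (hlt _) (by omega), nb_cat_lt _ _ _ (by omega), nb_mod _ _ _ (by omega)]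
  · rw [nb_cat_ge _ _ _ (hlt _) (by omega), nb_cat_ge _ _ _ (hlt _) (by omega), nb_mod _ _ _ (by omega)]
    rfl

theorem dg_pow (i j : ℕ) : dg (65536 ^ i) j = if i = j then 1 else 0 := by
  have h := dg_shift_pow i 1 j
  rw [mul_one] at h
  rw [h]
  by_cases h1 : i = j
  · rw [if_pos h1, if_pos h1.le, h1, Nat.sub_self, dg_one_zero]
  · rw [if_neg h1]
    split_ifs with h2
    · obtain ⟨d, hd⟩ : ∃ d, j - i = d + 1 := ⟨j - i - 1, by omega⟩
      rw [hd, dg_one_succ]
    · rfl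

theorem prod_chk (L : List ℕ) (a b c : ℕ) (hlen : L.length = 144) (hs : smL L = true)
    (hr : ∀ i < 144, rowOK L a b c i = true) (i : ℕ) (hi : i < 144) (j : ℕ) (hj : j < 144) :
    (∑ k ∈ Finset.range 144, EN a b c i k * dg (L.getD k 0) j) % 11 = if i = j then 1 else 0 := by
  have h := hr i hi
  unfold rowOK at h
  rw [Bool.and_eq_true] at h
  have h1 := Nat.eq_of_beq_eq_true h.1
  have h2 := Nat.eq_of_beq_eq_true h.2
  have h3 := cong_dg (K := 65536 ^ i) (Q := (sumL L (row a b c i) - 65536 ^ i) / 11) (n := 144)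
    (fun d _ => by rw [dg_pow]; split_ifs <;> omega)
    (fun d hd => dg_le_of_land h1 (dg_L12 d hd)) j hj
  rw [h2, sumL_eq, hlen, dg_sum (Finset.range 144) (fun k => nb (row a b c i) k) (fun k => L.getD k 0) 144
    (fun d hd => by
      refine lt_of_le_of_lt (Finset.sum_le_sum (g := fun _ => 15 * 15)
        fun k _ => Nat.mul_le_mul (nb_lt _ k) (smL_dg L hs k d hd)) ?_
      rw [Finset.sum_const, Finset.card_range]
      norm_num) j hj, dg_pow] at h3
  rw [Finset.sum_congr rfl fun k hk => by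
    rw [← row_nb a b c i k (Finset.mem_range.1 hk)]]
  rw [h3]
  split_ifs <;> rfl

theorem det_ne {n : ℕ} (M : Matrix (Fin n) (Fin n) ℚ) (N B : ℕ → ℕ → ℕ)
    (h : ∀ i j : Fin n, Rl (M i j) (N i j))
    (hB : ∀ i < n, ∀ j < n, (∑ k ∈ Finset.range n, N i k * B k j) % 11 = if i = j then 1 else 0) :
    M.det ≠ 0 := by
  intro h0
  choose Z hZ hZ' using h
  have e1 : (Matrix.of Z).det = 0 := by
    have h1 : (Matrix.of Z).map (PadicInt.Coe.ringHom (p := 11)) = M.map (Rat.castHom ℚ_[11]) := by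
      ext i j
      exact hZ i j
    have h2 := RingHom.map_det (PadicInt.Coe.ringHom (p := 11)) (Matrix.of Z)
    have h3 := RingHom.map_det (Rat.castHom ℚ_[11]) M
    rw [h0, map_zero] at h3
    have h4 : (PadicInt.Coe.ringHom (p := 11)) (Matrix.of Z).det = 0 := by
      rw [h2, RingHom.mapMatrix_apply, h1, h3, RingHom.mapMatrix_apply]
    exact Subtype.ext h4
  have e2 : ((Matrix.of Z).map (PadicInt.toZMod (p := 11))).det = 0 := by
    have h2 := RingHom.map_det (PadicInt.toZMod (p := 11)) (Matrix.of Z)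
    rw [e1, map_zero] at h2
    exact h2.symm
  have e3 : (Matrix.of Z).map (PadicInt.toZMod (p := 11)) *
      (Matrix.of fun k j : Fin n => ((B k j : ℕ) : ZMod 11)) = 1 := by
    ext i j
    rw [Matrix.mul_apply]
    have h1 : ∀ k : Fin n, (Matrix.of Z).map (PadicInt.toZMod (p := 11)) i k *
        (Matrix.of fun k j : Fin n => ((B k j : ℕ) : ZMod 11)) k j =
        ((N i k * B k j : ℕ) : ZMod 11) := by
      intro k
      rw [Nat.cast_mul]
      show PadicInt.toZMod (Z i k) * ((B k j : ℕ) : ZMod 11) = _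
      rw [hZ' i k]
    rw [Finset.sum_congr rfl fun k _ => h1 k, ← Nat.cast_sum,
      Fin.sum_univ_eq_sum_range (fun k => N i k * B k j) n, ← ZMod.natCast_mod,
      hB i i.2 j j.2, Matrix.one_apply]
    by_cases hij : i = j
    · rw [if_pos hij, if_pos (by rw [hij]), Nat.cast_one]
    · rw [if_neg hij, if_neg (fun h => hij (Fin.ext h)), Nat.cast_zero]
  have e4 := congrArg Matrix.det e3
  rw [Matrix.det_mul, e2, zero_mul, Matrix.det_one] at e4
  exact absurd e4 (by decide)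

theorem main (i0 b7 : ℕ) (L : List ℕ) (hlen : L.length = 144) (hs : smL L = true)
    (hr : ∀ i < 144, rowOK L FF B3 b7 i = true) (hb : ∀ e ≤ 190, Rl (Bm i0 e) (nb b7 e)) :
    (Matrix.of fun l l' : Fin 144 => if l'.1 < 48 then Fm (l.1 + l'.1) else
      if l'.1 < 96 then Bm 3 (l.1 + (l'.1 - 48)) else Bm i0 (l.1 + (l'.1 - 96))).det ≠ 0 := by
  refine det_ne _ (EN FF B3 b7) (fun k j => dg (L.getD k 0) j) ?_ (prod_chk L FF B3 b7 hlen hs hr)
  intro i j
  show Rl (if j.1 < 48 then Fm (i.1 + j.1) else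
      if j.1 < 96 then Bm 3 (i.1 + (j.1 - 48)) else Bm i0 (i.1 + (j.1 - 96))) (EN FF B3 b7 i.1 j.1)
  unfold EN
  have hi := i.2
  have hj := j.2
  split_ifs with h1 h2
  · exact rl_Fm _ (by omega)
  · exact rl_B3 _ (by omega)
  · exact hb _ (by omega)

end H5

open H5 in
theorem t_H5_local : St_H5_local := by
  intro i0 h
  rcases h with rfl | rfl
  · exact main 5 B5 C5 C5_len C5_sm C5_row rl_B5
  · exact main 7 B7 C7 C7_len C7_sm C7_row rl_B7

end Pool.Agent.Run7.h755.T
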