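import Pool.Agent.Run7.h755.T.H5Tab
import Pool.Agent.Run7.h755.T.H5C5
import Pool.Agent.Run7.h755.T.H5C7

/-!
# The kernel computations for the local determinants
-/

namespace Pool.Agent.Run7.h755.T

namespace H5

/-- the nibble `k` of `F` -/
def nb (F k : ℕ) : ℕ := F / 16 ^ k % 16

theorem nb_zero (F : ℕ) : nb F 0 = F % 16 := by
  unfold nb
  rw [pow_zero, Nat.div_one]

theorem nb_succ (F k : ℕ) : nb F (k + 1) = nb (F / 16) k := by
  unfold nb
  rw [pow_succ, mul_comm (16 ^ k), Nat.div_div_eq_div_mul]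

theorem nb_lt (F k : ℕ) : nb F k ≤ 15 := by
  have := Nat.mod_lt (F / 16 ^ k) (show 0 < 16 by norm_num)
  unfold nb
  omega

/-! ### the series -/

/-- one step at the four poles -/
def st4 (y x : ℕ × ℕ × ℕ × ℕ) : Bool :=
  st 0 y.1 x.1 && (st 10 y.2.1 x.2.1 && (st 9 y.2.2.1 x.2.2.1 && st 8 y.2.2.2 x.2.2.2))

/-- all steps -/
def chkT : List (ℕ × ℕ × ℕ × ℕ) → ℕ × ℕ × ℕ × ℕ → Bool
  | [], _ => true
  | x :: l, y => st4 y x && chkT l x

/-- the default value -/
def z4 : ℕ × ℕ × ℕ × ℕ := (0, 0, 0, 0)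

theorem chkT_get (l : List (ℕ × ℕ × ℕ × ℕ)) (y : ℕ × ℕ × ℕ × ℕ) (h : chkT l y = true) (k : ℕ)
    (hk : k < l.length) : st4 ((y :: l).getD k z4) ((y :: l).getD (k + 1) z4) = true := by
  induction l generalizing y k with
  | nil => exact absurd hk (by simp)
  | cons x l ih =>
    unfold chkT at h
    rw [Bool.and_eq_true] at h
    cases k with
    | zero => exact h.1
    | succ k =>
      have := ih x h.2 k (by simpa using hk)
      simpa using this

theorem TL_chk : chkT TL T0 = true := by decide +kernel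

theorem TL_len : TL.length = 190 := by decide +kernel

/-- the conditions on the values -/
def ve (x : ℕ × ℕ × ℕ × ℕ) (a b c d : ℕ) : Bool :=
  Nat.beq (10 * (dg (x.1 * W0) 63 + dg (x.2.1 * W1) 63 + dg (x.2.2.1 * W2) 63 + dg (x.2.2.2 * W3) 63) % 11) a &&
  (Nat.beq (2 * (dg x.1 61 + dg x.2.1 61 + dg x.2.2.1 61 + dg x.2.2.2 61) % 11) b &&
  (Nat.beq (2 * (dg x.1 59 + dg x.2.1 59 + dg x.2.2.1 59 + dg x.2.2.2 59) % 11) c &&
  Nat.beq (2 * (dg x.1 57 + dg x.2.1 57 + dg x.2.2.1 57 + dg x.2.2.2 57) % 11) d))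

/-- all values -/
def chkV : List (ℕ × ℕ × ℕ × ℕ) → ℕ → ℕ → ℕ → ℕ → Bool
  | [], _, _, _, _ => true
  | x :: l, a, b, c, d => ve x (a % 16) (b % 16) (c % 16) (d % 16) && chkV l (a / 16) (b / 16) (c / 16) (d / 16)

theorem chkV_get (l : List (ℕ × ℕ × ℕ × ℕ)) (a b c d : ℕ) (h : chkV l a b c d = true) (k : ℕ)
    (hk : k < l.length) : ve (l.getD k z4) (nb a k) (nb b k) (nb c k) (nb d k) = true := by
  induction l generalizing a b c d k with
  | nil => exact absurd hk (by simp)
  | cons x l ih =>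
    unfold chkV at h
    rw [Bool.and_eq_true] at h
    cases k with
    | zero =>
      rw [nb_zero, nb_zero, nb_zero, nb_zero]
      exact h.1
    | succ k =>
      have := ih _ _ _ _ h.2 k (by simpa using hk)
      rw [nb_succ, nb_succ, nb_succ, nb_succ]
      simpa using this

theorem TL_val : chkV (T0 :: TL) FF B3 B5 B7 = true := by decide +kernel

theorem W_sm : (sm W0 && (sm W1 && (sm W2 && sm W3))) = true := by decide +kernel

/-! ### the inverse matrices -/

/-- combination of the rows -/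
def sumL : List ℕ → ℕ → ℕ
  | [], _ => 0
  | c :: l, F => F % 16 * c + sumL l (F / 16)

theorem sumL_eq (L : List ℕ) (F : ℕ) :
    sumL L F = ∑ k ∈ Finset.range L.length, nb F k * L.getD k 0 := by
  induction L generalizing F with
  | nil => simp [sumL]
  | cons c l ih =>
    rw [List.length_cons, Finset.sum_range_succ', sumL, ih, nb_zero, add_comm]
    congr 1
    refine Finset.sum_congr rfl fun k _ => ?_
    rw [nb_succ]
    simp

/-- small lanes -/
def smL : List ℕ → Bool
  | [] => true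
  | c :: l => Nat.beq (Nat.land c L15) c && smL l

theorem smL_dg (L : List ℕ) (h : smL L = true) (k d : ℕ) (hd : d < 144) : dg (L.getD k 0) d ≤ 15 := by
  induction L generalizing k with
  | nil => simp [dg]
  | cons c l ih =>
    unfold smL at h
    rw [Bool.and_eq_true] at h
    cases k with
    | zero => exact dg_le_of_land (Nat.eq_of_beq_eq_true h.1) (dg_L15 d hd)
    | succ k => simpa using ih h.2 k

/-- the row `i` of the matrix -/
def row (a b c i : ℕ) : ℕ :=
  a / 16 ^ i % 16 ^ 48 + 16 ^ 48 * (b / 16 ^ i % 16 ^ 48 + 16 ^ 48 * (c / 16 ^ i % 16 ^ 48))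

/-- the check of the row `i` -/
def rowOK (L : List ℕ) (a b c i : ℕ) : Bool :=
  Nat.beq (Nat.land ((sumL L (row a b c i) - 65536 ^ i) / 11) L12) ((sumL L (row a b c i) - 65536 ^ i) / 11) &&
  Nat.beq (65536 ^ i + 11 * ((sumL L (row a b c i) - 65536 ^ i) / 11)) (sumL L (row a b c i))

theorem C5_len : C5.length = 144 := by decide +kernel

theorem C7_len : C7.length = 144 := by decide +kernel

theorem C5_sm : smL C5 = true := by decide +kernel

theorem C7_sm : smL C7 = true := by decide +kernel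

theorem C5_row : ∀ i < 144, rowOK C5 FF B3 B5 i = true := by decide +kernel

theorem C7_row : ∀ i < 144, rowOK C7 FF B3 B7 i = true := by decide +kernel

end H5

end Pool.Agent.Run7.h755.T
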