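import Pool.Agent.H337R2.Form

/-!
# Packed arithmetic modulo `11` (tools for the local determinants)

Numbers are packed in lanes of 16 bits. Rational numbers and power series with coefficients integral at `11` are
represented by naturals modulo `11`.
-/

open Polynomial Pool.Agent.H337R2

namespace Pool.Agent.Run7.h755.T

namespace H5

theorem fact11 : Fact (Nat.Prime 11) := ⟨by norm_num⟩

attribute [local instance] fact11

/-- `x` reduces to `n` modulo `11` -/
def Rl (x : ℚ) (n : ℕ) : Prop :=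
  ∃ z : ℤ_[11], (z : ℚ_[11]) = (x : ℚ_[11]) ∧ PadicInt.toZMod z = (n : ZMod 11)

theorem Rl.add {x y : ℚ} {m n : ℕ} (hx : Rl x m) (hy : Rl y n) : Rl (x + y) (m + n) := by
  obtain ⟨z, hz, hz'⟩ := hx
  obtain ⟨w, hw, hw'⟩ := hy
  exact ⟨z + w, by rw [PadicInt.coe_add, hz, hw, Rat.cast_add], by
    rw [map_add, hz', hw', Nat.cast_add]⟩

theorem Rl.mul {x y : ℚ} {m n : ℕ} (hx : Rl x m) (hy : Rl y n) : Rl (x * y) (m * n) := by
  obtain ⟨z, hz, hz'⟩ := hx
  obtain ⟨w, hw, hw'⟩ := hy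
  exact ⟨z * w, by rw [PadicInt.coe_mul, hz, hw, Rat.cast_mul], by
    rw [map_mul, hz', hw', Nat.cast_mul]⟩

theorem Rl.congr {x : ℚ} {m n : ℕ} (h : Rl x m) (hmn : m % 11 = n % 11) : Rl x n := by
  obtain ⟨z, hz, hz'⟩ := h
  refine ⟨z, hz, hz'.trans ?_⟩
  rw [← ZMod.natCast_mod m 11, hmn, ZMod.natCast_mod]

theorem Rl.nat (n : ℕ) : Rl (n : ℚ) n :=
  ⟨(n : ℤ_[11]), by rw [PadicInt.coe_natCast, Rat.cast_natCast], map_natCast _ _⟩

theorem Rl.neg_one : Rl (-1) 10 :=
  ⟨-1, by rw [PadicInt.coe_neg, PadicInt.coe_one, Rat.cast_neg, Rat.cast_one], by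
    rw [map_neg, map_one]; decide⟩

theorem Rl.neg {x : ℚ} {n : ℕ} (h : Rl x n) : Rl (-x) (10 * n) := by
  have := Rl.neg_one.mul h
  rwa [neg_one_mul] at this

theorem Rl.pow {x : ℚ} {n : ℕ} (h : Rl x n) (k : ℕ) : Rl (x ^ k) (n ^ k) := by
  induction k with
  | zero =>
    rw [pow_zero, pow_zero]
    exact_mod_cast Rl.nat 1
  | succ k ih => rw [pow_succ, pow_succ]; exact ih.mul h

theorem Rl.zero : Rl 0 0 := by
  exact_mod_cast Rl.nat 0

theorem Rl.one : Rl 1 1 := by
  exact_mod_cast Rl.nat 1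

theorem Rl.sub_nat (i j : ℕ) : Rl ((i : ℚ) - j) (i + 10 * j) := by
  rw [sub_eq_add_neg]
  exact (Rl.nat i).add (Rl.nat j).neg

theorem Rl.cancel {a x : ℚ} {m mi n : ℕ} (ha : Rl a m) (hm : m * mi % 11 = 1)
    (h : Rl (a * x) n) : Rl x (n * mi) := by
  obtain ⟨z, hz, hz'⟩ := ha
  obtain ⟨w, hw, hw'⟩ := h
  have h1 : (m : ZMod 11) * (mi : ZMod 11) = 1 := by
    rw [← Nat.cast_mul, ← ZMod.natCast_mod, hm, Nat.cast_one]
  have hne : PadicInt.toZMod z ≠ 0 := by
    rw [hz']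
    intro h0
    rw [h0, zero_mul] at h1
    exact absurd h1 (by decide)
  have hu : IsUnit z := by
    by_contra hcon
    have h2 : z ∈ IsLocalRing.maximalIdeal ℤ_[11] := (IsLocalRing.mem_maximalIdeal z).2 hcon
    rw [← PadicInt.ker_toZMod] at h2
    exact hne h2
  obtain ⟨u, rfl⟩ := hu
  have h3 : (((u : ℤ_[11]) : ℚ_[11])) * (((u⁻¹ : ℤ_[11]ˣ) : ℤ_[11]) : ℚ_[11]) = 1 := by
    rw [← PadicInt.coe_mul, Units.mul_inv, PadicInt.coe_one]
  have h4 : PadicInt.toZMod (u : ℤ_[11]) * PadicInt.toZMod ((u⁻¹ : ℤ_[11]ˣ) : ℤ_[11]) = 1 := by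
    rw [← map_mul, Units.mul_inv, map_one]
  refine ⟨w * ((u⁻¹ : ℤ_[11]ˣ) : ℤ_[11]), ?_, ?_⟩
  · rw [PadicInt.coe_mul, hw, Rat.cast_mul, ← hz]
    calc (((u : ℤ_[11]) : ℚ_[11])) * (x : ℚ_[11]) * (((u⁻¹ : ℤ_[11]ˣ) : ℤ_[11]) : ℚ_[11])
        = ((((u : ℤ_[11]) : ℚ_[11])) * (((u⁻¹ : ℤ_[11]ˣ) : ℤ_[11]) : ℚ_[11])) * (x : ℚ_[11]) := by ring
      _ = (x : ℚ_[11]) := by rw [h3, one_mul]
  · rw [map_mul, hw', Nat.cast_mul]
    congr 1
    rw [hz'] at h4
    calc PadicInt.toZMod ((u⁻¹ : ℤ_[11]ˣ) : ℤ_[11])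
        = ((m : ZMod 11) * (mi : ZMod 11)) * PadicInt.toZMod ((u⁻¹ : ℤ_[11]ˣ) : ℤ_[11]) := by
          rw [h1, one_mul]
      _ = (mi : ZMod 11) * ((m : ZMod 11) * PadicInt.toZMod ((u⁻¹ : ℤ_[11]ˣ) : ℤ_[11])) := by ring
      _ = (mi : ZMod 11) := by rw [h4, mul_one]

theorem Rl.sum {ι : Type} (s : Finset ι) (f : ι → ℚ) (g : ι → ℕ) (h : ∀ i ∈ s, Rl (f i) (g i)) :
    Rl (∑ i ∈ s, f i) (∑ i ∈ s, g i) := by
  classical
  induction s using Finset.induction_on with
  | empty => simpa using Rl.zero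
  | insert a s ha ih =>
    rw [Finset.sum_insert ha, Finset.sum_insert ha]
    exact (h a (Finset.mem_insert_self a s)).add
      (ih fun i hi => h i (Finset.mem_insert_of_mem hi))

/-! ### Lanes -/

/-- the lane `d` of `N` -/
def dg (N d : ℕ) : ℕ := N / 65536 ^ d % 65536

theorem dg_lt (N d : ℕ) : dg N d < 65536 := Nat.mod_lt _ (by norm_num)

theorem dg_one_zero : dg 1 0 = 1 := by decide

theorem dg_one_succ (d : ℕ) : dg 1 (d + 1) = 0 := by
  unfold dg
  rw [Nat.div_eq_of_lt (Nat.one_lt_pow (Nat.succ_ne_zero d) (by norm_num))]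

theorem sum_div {ι : Type} (s : Finset ι) (a x : ι → ℕ)
    (h : ∑ k ∈ s, a k * (x k % 65536) < 65536) :
    (∑ k ∈ s, a k * x k) / 65536 = ∑ k ∈ s, a k * (x k / 65536) := by
  have e : ∑ k ∈ s, a k * x k =
      65536 * ∑ k ∈ s, a k * (x k / 65536) + ∑ k ∈ s, a k * (x k % 65536) := by
    rw [Finset.mul_sum, ← Finset.sum_add_distrib]
    refine Finset.sum_congr rfl fun k _ => ?_
    conv_lhs => rw [← Nat.div_add_mod (x k) 65536]
    ring
  rw [e, Nat.mul_add_div (by norm_num), Nat.div_eq_of_lt h, add_zero]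

theorem sum_mod {ι : Type} (s : Finset ι) (a x : ι → ℕ)
    (h : ∑ k ∈ s, a k * (x k % 65536) < 65536) :
    (∑ k ∈ s, a k * x k) % 65536 = ∑ k ∈ s, a k * (x k % 65536) := by
  have e : ∑ k ∈ s, a k * x k =
      65536 * ∑ k ∈ s, a k * (x k / 65536) + ∑ k ∈ s, a k * (x k % 65536) := by
    rw [Finset.mul_sum, ← Finset.sum_add_distrib]
    refine Finset.sum_congr rfl fun k _ => ?_
    conv_lhs => rw [← Nat.div_add_mod (x k) 65536]
    ring
  rw [e, Nat.mul_add_mod, Nat.mod_eq_of_lt h]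

theorem sum_div_pow {ι : Type} (s : Finset ι) (a x : ι → ℕ) (n : ℕ)
    (h : ∀ d < n, ∑ k ∈ s, a k * dg (x k) d < 65536) (d : ℕ) (hd : d ≤ n) :
    (∑ k ∈ s, a k * x k) / 65536 ^ d = ∑ k ∈ s, a k * (x k / 65536 ^ d) := by
  induction d with
  | zero => simp
  | succ d ih =>
    rw [pow_succ, ← Nat.div_div_eq_div_mul, ih (by omega), sum_div s a _ (h d (by omega))]
    exact Finset.sum_congr rfl fun k _ => by rw [Nat.div_div_eq_div_mul]

theorem dg_sum {ι : Type} (s : Finset ι) (a x : ι → ℕ) (n : ℕ)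
    (h : ∀ d < n, ∑ k ∈ s, a k * dg (x k) d < 65536) (d : ℕ) (hd : d < n) :
    dg (∑ k ∈ s, a k * x k) d = ∑ k ∈ s, a k * dg (x k) d := by
  unfold dg
  rw [sum_div_pow s a x n h d hd.le, sum_mod s a _ (h d hd)]

theorem dg_lin (a b x y n : ℕ) (h : ∀ d < n, a * dg x d + b * dg y d < 65536) (d : ℕ) (hd : d < n) :
    dg (a * x + b * y) d = a * dg x d + b * dg y d := by
  have := dg_sum (Finset.range 2) (fun k => if k = 0 then a else b) (fun k => if k = 0 then x else y) n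
    (by intro d hd; simpa [Finset.sum_range_succ] using h d hd) d hd
  simpa [Finset.sum_range_succ] using this

theorem dg_mod {n d : ℕ} (X : ℕ) (hd : d < n) : dg (X % 65536 ^ n) d = dg X d := by
  unfold dg
  rw [← Nat.mod_mul_right_div_self, ← Nat.mod_mul_right_div_self, ← pow_succ,
    Nat.mod_mod_of_dvd _ (pow_dvd_pow _ (by omega))]

/-- the lane before `d` -/
def pd (N : ℕ) : ℕ → ℕ
  | 0 => 0
  | d + 1 => dg N d

theorem dg_shift (N d : ℕ) : dg (65536 * N) d = pd N d := by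
  unfold dg
  cases d with
  | zero => simp [pd]
  | succ d =>
    rw [pow_succ, mul_comm (65536 ^ d), ← Nat.div_div_eq_div_mul, Nat.mul_div_cancel_left _ (by norm_num)]
    rfl

theorem dg_shift_pow (i : ℕ) (N d : ℕ) : dg (65536 ^ i * N) d = if i ≤ d then dg N (d - i) else 0 := by
  induction i generalizing d with
  | zero => simp
  | succ i ih =>
    rw [pow_succ, mul_comm (65536 ^ i), mul_assoc, dg_shift]
    cases d with
    | zero => simp [pd]
    | succ d =>
      show dg (65536 ^ i * N) d = _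
      rw [ih]
      simp

theorem dg_land (A B d : ℕ) : dg (Nat.land A B) d = Nat.land (dg A d) (dg B d) := by
  unfold dg
  have e : (65536 : ℕ) ^ d = 2 ^ (16 * d) := by rw [pow_mul]; norm_num
  have e' : (65536 : ℕ) = 2 ^ 16 := by norm_num
  rw [e, e']
  show (A &&& B) / 2 ^ (16 * d) % 2 ^ 16 = (A / 2 ^ (16 * d) % 2 ^ 16) &&& (B / 2 ^ (16 * d) % 2 ^ 16)
  rw [Nat.and_div_two_pow, Nat.and_mod_two_pow]

/-- lanes of a number equal to its meet with `M` are bounded by those of `M` -/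
theorem dg_le_of_land {A M d b : ℕ} (h : Nat.land A M = A) (hb : dg M d ≤ b) : dg A d ≤ b := by
  have h1 := dg_land A M d
  rw [h] at h1
  rw [h1]
  exact le_trans Nat.and_le_right hb

/-- the basic comparison -/
theorem cong_dg {K Q n : ℕ} (hK : ∀ d < n, dg K d ≤ 15) (hQ : ∀ d < n, dg Q d ≤ 4095) (d : ℕ) (hd : d < n) :
    dg (K + 11 * Q) d % 11 = dg K d % 11 := by
  have := dg_lin 1 11 K Q n (fun d hd => by have := hK d hd; have := hQ d hd; omega) d hd
  rw [one_mul, one_mul] at this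
  rw [this, Nat.add_mul_mod_self_left]

/-! ### Masks -/

/-- 64 lanes with value 15 -/
def M15 : ℕ := 0xf * ((65536 ^ 64 - 1) / 65535)

/-- 64 lanes with value 4095 -/
def M12 : ℕ := 0xfff * ((65536 ^ 64 - 1) / 65535)

/-- 144 lanes with value 15 -/
def L15 : ℕ := 0xf * ((65536 ^ 144 - 1) / 65535)

/-- 144 lanes with value 4095 -/
def L12 : ℕ := 0xfff * ((65536 ^ 144 - 1) / 65535)

theorem dg_M15 : ∀ d < 64, dg M15 d ≤ 15 := by decide +kernel
theorem dg_M12 : ∀ d < 64, dg M12 d ≤ 4095 := by decide +kernel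
theorem dg_L15 : ∀ d < 144, dg L15 d ≤ 15 := by decide +kernel
theorem dg_L12 : ∀ d < 144, dg L12 d ≤ 4095 := by decide +kernel

/-- small lanes -/
def sm (N : ℕ) : Bool := Nat.beq (Nat.land N M15) N

theorem sm_dg {N : ℕ} (h : sm N = true) (d : ℕ) (hd : d < 64) : dg N d ≤ 15 :=
  dg_le_of_land (Nat.eq_of_beq_eq_true h) (dg_M15 d hd)

theorem sm_lt {N : ℕ} (h : sm N = true) : N < 65536 ^ 64 := by
  have h1 : N ≤ M15 := by
    have := Nat.eq_of_beq_eq_true h
    rw [← this]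
    exact Nat.and_le_right
  exact lt_of_le_of_lt h1 (by decide +kernel)

/-- `X` and `K` agree modulo 11 in all 64 lanes, the lanes of `K` being small -/
def cg (X K : ℕ) : Bool :=
  sm K && (Nat.beq (Nat.land ((X - K) / 11) M12) ((X - K) / 11) && Nat.beq (K + 11 * ((X - K) / 11)) X)

theorem cg_sm {X K : ℕ} (h : cg X K = true) : sm K = true := by
  unfold cg at h
  rw [Bool.and_eq_true] at h
  exact h.1

theorem cg_dg {X K : ℕ} (h : cg X K = true) (d : ℕ) (hd : d < 64) : dg K d % 11 = dg X d % 11 := by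
  unfold cg at h
  rw [Bool.and_eq_true, Bool.and_eq_true] at h
  obtain ⟨h1, h2, h3⟩ := h
  have h4 := cong_dg (K := K) (Q := (X - K) / 11) (n := 64) (fun d hd => sm_dg h1 d hd)
    (fun d hd => dg_le_of_land (Nat.eq_of_beq_eq_true h2) (dg_M12 d hd)) d hd
  rw [Nat.eq_of_beq_eq_true h3] at h4
  exact h4.symm

/-- `N'` is `(X + c) N` modulo `11` -/
def Chk (c N N' : ℕ) : Prop := ∀ d, d < 64 → dg N' d % 11 = (pd N d + c * dg N d) % 11

instance (c N N' : ℕ) : Decidable (Chk c N N') := by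
  unfold Chk
  infer_instance

/-- fast form -/
def st (c N N' : ℕ) : Bool := cg ((65536 + c) * N % 65536 ^ 64) N'

theorem st_chk {c N N' : ℕ} (h : st c N N' = true) (hN : sm N = true) (hc : c ≤ 10) : Chk c N N' := by
  intro d hd
  rw [cg_dg h d hd, dg_mod _ hd, add_mul]
  congr 1
  have h1 := dg_lin 1 c (65536 * N) N 64 (fun d hd => by
    rw [dg_shift]
    have h2 : pd N d ≤ 15 := by
      cases d with
      | zero => simp [pd]
      | succ d => exact sm_dg hN d (by omega)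
    have h3 := sm_dg hN d hd
    have h4 : c * dg N d ≤ 10 * 15 := Nat.mul_le_mul hc h3
    omega) d hd
  rw [one_mul, one_mul, dg_shift] at h1
  exact h1

theorem eq_sum_dg (n N : ℕ) (h : N < 65536 ^ n) : N = ∑ i ∈ Finset.range n, dg N i * 65536 ^ i := by
  induction n generalizing N with
  | zero =>
    rw [pow_zero] at h
    rw [Finset.range_zero, Finset.sum_empty]
    omega
  | succ n ih =>
    rw [Finset.sum_range_succ']
    have h1 : N / 65536 < 65536 ^ n := by
      rw [Nat.div_lt_iff_lt_mul (by norm_num), ← pow_succ]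
      exact h
    have h2 : ∀ i, dg N (i + 1) = dg (N / 65536) i := by
      intro i
      unfold dg
      rw [pow_succ, mul_comm (65536 ^ i), Nat.div_div_eq_div_mul]
    have h3 : dg N 0 = N % 65536 := by
      unfold dg
      rw [pow_zero, Nat.div_one]
    simp only [h2, h3, pow_zero, mul_one]
    have h4 := ih _ h1
    have h5 : ∑ i ∈ Finset.range n, dg (N / 65536) i * 65536 ^ (i + 1) = 65536 * (N / 65536) := by
      conv_rhs => rw [h4]
      rw [Finset.mul_sum]
      exact Finset.sum_congr rfl fun i _ => by ring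
    rw [h5, Nat.div_add_mod]

theorem dg_mul {N M : ℕ} (hN : sm N = true) (hM : sm M = true) (d : ℕ) (hd : d < 64) :
    dg (N * M) d = ∑ i ∈ Finset.range (d + 1), dg N i * dg M (d - i) := by
  have e : N * M = ∑ i ∈ Finset.range 64, dg N i * (65536 ^ i * M) := by
    conv_lhs => rw [eq_sum_dg 64 N (sm_lt hN)]
    rw [Finset.sum_mul]
    exact Finset.sum_congr rfl fun i _ => by ring
  have hb : ∀ d < 64, ∀ i ∈ Finset.range 64, dg N i * dg (65536 ^ i * M) d ≤ 225 := by
    intro d hd i hi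
    have h1 := sm_dg hN i (Finset.mem_range.1 hi)
    have h2 : dg (65536 ^ i * M) d ≤ 15 := by
      rw [dg_shift_pow]
      split_ifs
      · exact sm_dg hM _ (by omega)
      · omega
    calc _ ≤ 15 * 15 := Nat.mul_le_mul h1 h2
      _ = 225 := by norm_num
  rw [e, dg_sum (Finset.range 64) (fun i => dg N i) (fun i => 65536 ^ i * M) 64 (fun d hd => by
    refine lt_of_le_of_lt (Finset.sum_le_sum (hb d hd)) ?_
    rw [Finset.sum_const, Finset.card_range]
    norm_num) d hd]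
  have e2 : ∀ i ∈ Finset.range 64, dg N i * dg (65536 ^ i * M) d =
      if i < d + 1 then dg N i * dg M (d - i) else 0 := by
    intro i _
    rw [dg_shift_pow]
    by_cases h : i ≤ d
    · rw [if_pos h, if_pos (by omega)]
    · rw [if_neg h, if_neg (by omega), mul_zero]
  rw [Finset.sum_congr rfl e2, ← Finset.sum_filter]
  congr 1
  ext i
  simp only [Finset.mem_filter, Finset.mem_range]
  omega

/-! ### Power series -/

/-- `N` encodes the first 64 coefficients of `f` modulo `11` -/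
def Rep (f : PowerSeries ℚ) (N : ℕ) : Prop := ∀ d, d < 64 → Rl (PowerSeries.coeff d f) (dg N d)

theorem coeff_lin_zero (c : ℚ) (f : PowerSeries ℚ) :
    PowerSeries.coeff 0 ((PowerSeries.X + PowerSeries.C c) * f) = c * PowerSeries.coeff 0 f := by
  rw [add_mul, map_add, PowerSeries.coeff_C_mul, PowerSeries.coeff_zero_X_mul, zero_add]

theorem coeff_lin_succ (c : ℚ) (f : PowerSeries ℚ) (d : ℕ) :
    PowerSeries.coeff (d + 1) ((PowerSeries.X + PowerSeries.C c) * f) =
      PowerSeries.coeff d f + c * PowerSeries.coeff (d + 1) f := by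
  rw [add_mul, map_add, PowerSeries.coeff_C_mul, PowerSeries.coeff_succ_X_mul]

theorem rep_lin {f : PowerSeries ℚ} {N N' c : ℕ} {c' : ℚ} (h : Rep f N) (hc : Rl c' c)
    (hk : Chk c N N') : Rep ((PowerSeries.X + PowerSeries.C c') * f) N' := by
  intro d hd
  have h1 := hk d hd
  cases d with
  | zero =>
    rw [coeff_lin_zero]
    refine (hc.mul (h 0 hd)).congr ?_
    rw [h1]
    show _ = (0 + c * dg N 0) % 11
    rw [zero_add]
  | succ d =>
    rw [coeff_lin_succ]
    refine ((h d (by omega)).add (hc.mul (h (d + 1) hd))).congr ?_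
    rw [h1]
    rfl

theorem rep_div {g : PowerSeries ℚ} {N N' c ci : ℕ} {c' : ℚ}
    (h : Rep ((PowerSeries.X + PowerSeries.C c') * g) N') (hc : Rl c' c) (hci : c * ci % 11 = 1)
    (hk : Chk c N N') : Rep g N := by
  have key : ∀ a b x : ℕ, b % 11 = (a + c * x) % 11 → ((b + 10 * a) * ci) % 11 = x % 11 := by
    intro a b x hb
    have e1 : (b + 10 * a) % 11 = (c * x) % 11 := by omega
    calc ((b + 10 * a) * ci) % 11 = ((b + 10 * a) % 11 * (ci % 11)) % 11 := Nat.mul_mod _ _ _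
      _ = ((c * x) % 11 * (ci % 11)) % 11 := by rw [e1]
      _ = (c * x * ci) % 11 := (Nat.mul_mod _ _ _).symm
      _ = (c * ci * x) % 11 := by rw [mul_right_comm]
      _ = ((c * ci) % 11 * (x % 11)) % 11 := Nat.mul_mod _ _ _
      _ = x % 11 := by rw [hci, one_mul, Nat.mod_mod]
  intro d
  induction d with
  | zero =>
    intro hd
    have h1 := h 0 hd
    rw [coeff_lin_zero] at h1
    refine (hc.cancel hci h1).congr ?_
    have h2 := key 0 (dg N' 0) (dg N 0) (hk 0 hd)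
    rwa [mul_zero, add_zero] at h2
  | succ d ih =>
    intro hd
    have h1 := h (d + 1) hd
    rw [coeff_lin_succ] at h1
    have h2 := ih (by omega)
    have h3 : Rl (c' * PowerSeries.coeff (d + 1) g) (dg N' (d + 1) + 10 * dg N d) := by
      have h4 := h1.add h2.neg
      have h5 : PowerSeries.coeff d g + c' * PowerSeries.coeff (d + 1) g + -PowerSeries.coeff d g =
        c' * PowerSeries.coeff (d + 1) g := by ring
      rwa [h5] at h4
    exact (hc.cancel hci h3).congr (key (dg N d) (dg N' (d + 1)) (dg N (d + 1)) (hk (d + 1) hd))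

theorem rep_one : Rep 1 1 := by
  intro d _
  rw [PowerSeries.coeff_one]
  cases d with
  | zero =>
    rw [if_pos rfl, dg_one_zero]
    exact Rl.one
  | succ d =>
    rw [if_neg (Nat.succ_ne_zero d), dg_one_succ]
    exact Rl.zero

theorem rep_iv {a : ℚ} (ha : a ≠ 0) {c ci N : ℕ} (hc : Rl a c) (hci : c * ci % 11 = 1)
    (hk : Chk c N 1) : Rep (iv a) N := by
  refine rep_div (c' := a) (N' := 1) ?_ hc hci hk
  rw [lin_mul_iv ha]
  exact rep_one

/-- product check -/
def pr (N M K : ℕ) : Bool := cg (N * M % 65536 ^ 64) K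

theorem rep_mul {f g : PowerSeries ℚ} {N M K : ℕ} (hf : Rep f N) (hg : Rep g M) (hN : sm N = true)
    (hM : sm M = true) (h : pr N M K = true) : Rep (f * g) K := by
  intro d hd
  rw [PowerSeries.coeff_mul, Finset.Nat.sum_antidiagonal_eq_sum_range_succ
    (fun i j => PowerSeries.coeff i f * PowerSeries.coeff j g)]
  have h1 : Rl (∑ k ∈ Finset.range d.succ, PowerSeries.coeff k f * PowerSeries.coeff (d - k) g)
      (∑ k ∈ Finset.range (d + 1), dg N k * dg M (d - k)) := by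
    refine Rl.sum _ _ _ fun i hi => ?_
    have hi' := Finset.mem_range.1 hi
    exact (hf i (by omega)).mul (hg (d - i) (by omega))
  refine h1.congr ?_
  rw [cg_dg h d hd, dg_mod _ hd, dg_mul hN hM d hd]

/-- repeated squaring -/
def sq6 (L : List ℕ) : Bool :=
  pr (L.getD 0 0) (L.getD 0 0) (L.getD 1 0) && (pr (L.getD 1 0) (L.getD 1 0) (L.getD 2 0) &&
    (pr (L.getD 2 0) (L.getD 2 0) (L.getD 3 0) && (pr (L.getD 3 0) (L.getD 3 0) (L.getD 4 0) &&
      (pr (L.getD 4 0) (L.getD 4 0) (L.getD 5 0) && pr (L.getD 5 0) (L.getD 5 0) (L.getD 6 0)))))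

theorem rep_sq {f : PowerSeries ℚ} {N K : ℕ} (hf : Rep f N ∧ sm N = true) (h : pr N N K = true) :
    Rep (f ^ 2) K ∧ sm K = true := by
  rw [sq]
  exact ⟨rep_mul hf.1 hf.1 hf.2 hf.2 h, cg_sm h⟩

theorem rep_pow64 {f : PowerSeries ℚ} (L : List ℕ) (h0 : Rep f (L.getD 0 0)) (h1 : sm (L.getD 0 0) = true)
    (h : sq6 L = true) : Rep (f ^ 64) (L.getD 6 0) ∧ sm (L.getD 6 0) = true := by
  unfold sq6 at h
  simp only [Bool.and_eq_true] at h
  obtain ⟨a1, a2, a3, a4, a5, a6⟩ := h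
  have := rep_sq (rep_sq (rep_sq (rep_sq (rep_sq (rep_sq ⟨h0, h1⟩ a1) a2) a3) a4) a5) a6
  have e : (((((f ^ 2) ^ 2) ^ 2) ^ 2) ^ 2) ^ 2 = f ^ 64 := by
    rw [← pow_mul, ← pow_mul, ← pow_mul, ← pow_mul, ← pow_mul]
  rwa [e] at this

/-- three factors -/
theorem rep_mul3 {f g h : PowerSeries ℚ} {N M K A B : ℕ} (hf : Rep f N ∧ sm N = true)
    (hg : Rep g M ∧ sm M = true) (hh : Rep h K ∧ sm K = true) (h1 : pr N M A = true)
    (h2 : pr A K B = true) : Rep (f * g * h) B ∧ sm B = true :=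
  ⟨rep_mul (rep_mul hf.1 hg.1 hf.2 hg.2 h1) hh.1 (cg_sm h1) hh.2 h2, cg_sm h2⟩

end H5

end Pool.Agent.Run7.h755.T
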